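import Pool.Agent.MP_3ce0a0_al.H79.XS
import Pool.Agent.MP_3ce0a0_al.H79.XJ

/-
Unipotence on the sectors that are not constant.
-/

namespace Pool.Agent.MP_3ce0a0_al.H68

open Equiv FreeGroup Module Finset Pool.Agent.MP_3ce0a0_al.H62.Inst Pool.Agent.MP_3ce0a0_al.H79.X

lemma le_choose : ∀ n k : ℕ, 0 < k → k < n → n ≤ n.choose k
  | 0, _, _, h => absurd h (Nat.not_lt_zero _)
  | _ + 1, 0, h, _ => absurd h (lt_irrefl _)
  | n + 1, k + 1, _, h => by
    rcases Nat.lt_or_ge (k + 1) n with l | l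
    · have h1 := le_choose n (k + 1) k.succ_pos l
      have h2 := Nat.choose_pos (show k ≤ n by omega)
      rw [Nat.choose_succ_succ']
      omega
    · rw [show k + 1 = n by omega, Nat.choose_succ_self_right]

lemma six_le : ∀ h : ℕ, 5 ≤ h → 6 * h ≤ 2 ^ h := fun h k => by
  induction h, k using Nat.le_induction with
  | base => norm_num
  | succ m hm ih => rw [pow_succ]; omega

lemma num {h m : ℕ} (k : 5 ≤ h) (e : 2 * h * m ≤ (2 * h - 1) * 2 ^ (2 * h)) :
    m < (2 ^ h - 1) * (2 ^ h - 2) := by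
  have h6 := six_le h k
  rw [show 2 ^ (2 * h) = 2 ^ h * 2 ^ h by rw [two_mul, pow_add]] at e
  generalize 2 ^ h = t at *
  obtain ⟨u, rfl⟩ : ∃ u, t = u + 2 := ⟨t - 2, by omega⟩
  obtain ⟨j, rfl⟩ : ∃ j, h = j + 1 := ⟨h - 1, by omega⟩
  rw [show 2 * (j + 1) - 1 = 2 * j + 1 by omega] at e
  rw [show u + 2 - 1 = u + 1 by omega, Nat.add_sub_cancel]
  by_contra c
  have := Nat.mul_le_mul_left (2 * (j + 1)) (not_lt.1 c)
  have := Nat.mul_le_mul_right (u + 2) h6
  nlinarith

variable {ι H : Type} [DecidableEq ι] [AddCommGroup H] [Module ℂ H]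

omit [DecidableEq ι] in
lemma uni_prod (x : ι → End ℂ H) : ∀ l : List ι, (∀ e ∈ l, Uni (x e)) →
    (∀ e ∈ l, ∀ f ∈ l, Commute (x e) (x f)) → Uni (l.map x).prod
  | [], _, _ => ⟨1, by simp⟩
  | a :: l, h, k => by
    rw [List.map_cons, List.prod_cons]
    refine (h a (by simp)).mul (uni_prod x l (fun e he => h e (by simp [he]))
      fun e he f hf => k e (by simp [he]) f (by simp [hf])) (Commute.list_prod_right _ _ ?_)
    intro y hy
    obtain ⟨e, he, rfl⟩ := List.mem_map.1 hy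
    exact k a (by simp) e (by simp [he])

lemma keeps_On (r : Rep ι H) {S : Finset ι} (I : Finset ι) {α : A ι}
    (h : α ∈ On ((S : Set ι)ᶜ)) : Keeps (r α) (Sec r S I) :=
  keeps_Sec r I fun _ ha => commute_On disjoint_compl_left h (ep_mem_On ha)

/-- conjugation of one letter. -/
def Kw (e : ι) : FreeGroup ι →* A ι where
  toFun w := Rw e w * Lw e w
  map_one' := by simp
  map_mul' u v := by
    rw [(Rw e).map_mul, (Lw e).map_mul, mul_assoc, mul_assoc, ← mul_assoc (Rw e v),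
      (commute_Rw_Lw e v u).eq, mul_assoc]

lemma Kw_apply (e : ι) (w : FreeGroup ι) : Kw e w = Rw e w * Lw e w := rfl

variable [FiniteDimensional ℂ H]

omit [DecidableEq ι] in
lemma burn (h2 : SBurn) (S : Set ι) (ρ : FreeGroup ι →* End ℂ H) (Q : Submodule ℂ H)
    (k1 : ∀ w ∈ FS S, Keeps (ρ w) Q) (k2 : ∀ w ∈ FS S, UniOn (ρ w ^ 2) Q)
    (k3 : ∀ c ∈ S, UniOn (ρ (of c)) Q) : ∀ w ∈ FS S, UniOn (ρ w) Q := fun w hw =>
  (h2 H (FS S) (ρ.comp (FS S).subtype) Q (fun g => k1 g g.2) fun g => k2 g g.2).2 _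
    Subgroup.closure_closure_coe_preimage
    (fun ⟨_, _⟩ ⟨c, hc, e⟩ => by subst e; exact k3 c hc) ⟨w, hw⟩

lemma uni_Kw (h2 : SBurn) {r : Rep ι H} (q : Quad r) (k : ∀ e b, e ≠ b → Uni (r (kk e b)))
    {S : Finset ι} (hS : S.card ≤ 2) {e : ι} (he : e ∉ S) {w : FreeGroup ι}
    (hw : w ∈ FS (S : Set ι)) : Uni (r (Rw e w * Lw e w)) := by
  have K : ∀ v, (r.comp (Kw e)) v = r (Rw e v * Lw e v) := fun _ => by
    rw [MonoidHom.comp_apply, Kw_apply]
  rw [← K, ← uniOn_top]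
  have B := burn h2 (S : Set ι) (r.comp (Kw e)) ⊤ fun _ _ _ _ => Submodule.mem_top
  refine B (fun v hv => ?_) (fun c hc => ?_) w hw
  · have c : Commute (r (Rw e v)) (r (Lw e v)) := (commute_Rw_Lw e v v).map r
    have e1 : r (ep e) * r (ep e) = 1 := by rw [← _root_.map_mul, ep_sq, _root_.map_one]
    have u := (q e S hS he v hv).conj e1 e1
    have e2 : r (ep e) * r (Rw e v) ^ 2 * r (ep e) = r (Lw e v) ^ 2 := by
      rw [← r.map_pow, ← r.map_pow, ← (Rw e).map_pow, ← (Lw e).map_pow, ← r.map_mul, ← r.map_mul,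
        ep_conj_Rw]
    rw [e2] at u
    rw [K, _root_.map_mul, c.mul_pow]
    exact ((q e S hS he v hv).mul u (c.pow_pow 2 2)).on _
  · have n : e ≠ c := fun h => he (by rw [h]; exact hc)
    rw [K, ← kk_eq n]
    exact (k e c n).on _

theorem sun (h1 : SSg) (h2 : SBurn) (h3 : SMat) : SUN := by
  refine ⟨10, fun ι H _ _ _ _ _ r s n ⟨h, ev⟩ d q ni k g => ?_⟩
  rw [← two_mul] at ev
  have tr : Tr r s := fun I hI a b ab => by
    refine h3 H ι s _ h ev (by omega) g.1 (fun a b ab => keeps_JE I fun c _ => g.2.2.1 a b c ab)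
      (num (by omega) ?_) a b ab
    rw [← ev]
    exact (Nat.mul_le_mul_right _ (le_choose _ _ hI.2.1.card_pos
      (card_lt_card (hI.1.ssubset_of_ne hI.2.2)))).trans ((choose_mul_mu_le r I).trans d)
  have u1 : ∀ S I, NC S I → ∀ a b, a ∉ S → b ∉ S → a ≠ b → UniOn (r (rh a b)) (Sec r S I) := by
    intro S I hI a b ha hb ab
    refine (((h1 H _).2 _ (g.2.1 a b ab).1).2.2.2.2.2.2.2.1 _
      (keeps_On r I (rh_mem_On ha hb))).1 fun v hv => ?_
    rw [Sec_eq_iSup r hI.1] at hv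
    refine (iSup_le fun J v hv => ?_ : _ ≤ LinearMap.eqLocus (s a b) LinearMap.id) hv
    refine tr _ ⟨subset_univ _, hI.2.1.mono subset_union_left, fun e => ?_⟩ a b ab v hv
    obtain ⟨c, hc, hc'⟩ := exists_of_ssubset (hI.1.ssubset_of_ne hI.2.2)
    rcases mem_union.1 (e ▸ mem_univ c) with l | l
    · exact hc' l
    · exact mem_compl.1 (mem_powerset.1 J.2 l) hc
  refine ⟨tr, fun S I hI a b ha hb ab => ⟨u1 S I hI a b ha hb ab, fun e he ea eb => ?_⟩,
    fun a b _ α ⟨f1, w, hw, f2⟩ => ?_⟩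
  · have sub : ({a, b} : Set ι) ⊆ (S : Set ι)ᶜ := by
      rintro c (rfl | rfl) <;> assumption
    refine burn h2 _ (r.comp (Rw e)) _ (fun w hw => keeps_On r I (Rw_mem_On he (FS_mono sub hw)))
      (fun w hw => (q e {a, b} card_le_two (by simp [ea, eb]) w (by simpa using hw)).on _)
      fun c hc => ?_
    have n : e ≠ c := by rcases hc with rfl | rfl <;> assumption
    change UniOn (r (Rw e (of c))) _
    rw [← rh_eq n]
    exact u1 S I hI e c he (sub hc) n
  · rw [← coe_singleton, ← coe_insert] at f1 hw f2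
    rw [IO_eq hw f1 fun c hc => f2 _ (of_mem_FS hc), _root_.map_mul, ni, one_mul, map_list_prod,
      List.map_map]
    refine uni_prod _ _ (fun e he => uni_Kw h2 q k card_le_two
      (mem_compl.1 (mem_toList.1 he)) hw) fun e he f hf => Commute.map ?_ r
    by_cases ef : e = f
    · rw [ef]
    have he' := mem_compl.1 (mem_toList.1 he)
    have hf' := mem_compl.1 (mem_toList.1 hf)
    have c := commute_ne ef he' hf' hw hw
    have c' := commute_ne (Ne.symm ef) hf' he' hw hw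
    exact (c.1.mul_right c.2.1).mul_left (c'.2.1.symm.mul_right c.2.2)

end Pool.Agent.MP_3ce0a0_al.H68
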